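import Mathlib

namespace Pool.Agent.Results.MP_816335_an.Q1

open Set

/-- `T` is topologically transitive. -/
def Trans {X : Type} [TopologicalSpace X] (T : X → X) : Prop :=
  ∀ U V : Set X, IsOpen U → IsOpen V → U.Nonempty → V.Nonempty → ∃ n ≥ 1, (U ∩ T^[n] ⁻¹' V).Nonempty

/-- `f` on `S` is interpolated along a transitive point of a totally transitive system. -/
def Interp (S : Set ℕ) (f : ℕ → Fin 2) : Prop :=
  ∃ (X : Type) (_ : MetricSpace X) (_ : CompactSpace X) (T : X → X) (x : X) (F : X → ℂ),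
    Continuous T ∧ (∀ m ≥ 1, Trans T^[m]) ∧ DenseRange (fun n => T^[n] x) ∧ Continuous F ∧
    ∀ n ∈ S, F (T^[n] x) = (f n : ℕ)

lemma visit {X : Type} [MetricSpace X] [CompactSpace X] {T : X → X} {x : X} (c : Continuous T)
    (t : ∀ m ≥ 1, Trans T^[m]) (d : DenseRange fun n => T^[n] x) {M : ℕ} (hM : 1 ≤ M) (a : ℕ)
    {U : Set X} (o : IsOpen U) (ne : U.Nonempty) : ∃ n ≥ 1, n % M = a % M ∧ T^[n] x ∈ U := by
  have : Nonempty X := ⟨x⟩
  obtain ⟨r, hr⟩ := nonempty_interior_of_iUnion_of_closed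
    (f := fun r : Fin M => closure (range fun k => T^[M * k + r] x)) (fun _ => isClosed_closure) (by
      rw [← closure_iUnion_of_finite, ← univ_subset_iff, ← d.closure_range]
      refine closure_mono ?_
      rintro _ ⟨n, rfl⟩
      exact mem_iUnion.2 ⟨⟨n % M, Nat.mod_lt _ hM⟩, n / M, by simp [Nat.div_add_mod]⟩)
  obtain ⟨i, hi, i1⟩ : ∃ i, (r + i) % M = a % M ∧ 1 ≤ i :=
    ⟨M - r + a, by rw [← add_assoc, Nat.add_sub_cancel' r.2.le, Nat.add_mod_left], by omega⟩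
  obtain ⟨n, n1, z, -, hz⟩ := t i i1 _ _ isOpen_univ o univ_nonempty ne
  obtain ⟨n, rfl⟩ := Nat.exists_eq_add_of_le' n1
  obtain ⟨m, -, w, w1, w2⟩ := t M hM _ (T^[i] ⁻¹' U) isOpen_interior (o.preimage (c.iterate i)) hr
    ⟨_, by simpa only [mem_preimage, Function.iterate_succ_apply'] using hz⟩
  obtain ⟨_, h, k, rfl⟩ := mem_closure_iff.1 (interior_subset w1) _
    ((o.preimage (c.iterate i)).preimage ((c.iterate M).iterate m)) w2
  simp only [mem_preimage, ← Function.iterate_mul, ← Function.iterate_add_apply] at h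
  refine ⟨_, by omega, ?_, h⟩
  rw [show i + (M * m + (M * k + r)) = r + i + M * (m + k) by ring, Nat.add_mul_mod_self_left, hi]

theorem result (S : Set ℕ) (L : ℕ) (hS : ∀ n ≥ 1, ∃ s ∈ S, n ≤ s ∧ s ≤ n + L) :
    ∃ f : ℕ → Fin 2, ¬ Interp S f := by
  classical
  let K := L + 1
  refine ⟨fun s => if (s % (K * 2 ^ K) / K).testBit (s % K) then 0 else 1, ?_⟩
  rintro ⟨X, _, _, T, x, F, c, t, d, cF, h⟩
  obtain ⟨j, j1, j2⟩ : ∃ j < 2 ^ K, ∀ i < K, j.testBit i ↔ ‖F (T^[i] x) - 1‖ < 1 / 2 :=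
    ⟨Nat.ofBits fun i : Fin K => decide (‖F (T^[i] x) - 1‖ < 1 / 2), Nat.ofBits_lt_two_pow _,
      fun i hi => by simp [Nat.testBit_ofBits_lt _ _ hi]⟩
  obtain ⟨n, n1, n2, n3⟩ := visit c t d (M := K * 2 ^ K) (Nat.mul_pos L.succ_pos (by positivity)) (K * j)
    (U := ⋂ i : Fin K, {z | ‖F (T^[i] z) - F (T^[i] x)‖ < 1 / 2})
    (isOpen_iInter_of_finite fun i => isOpen_lt (by have := c.iterate i; fun_prop) continuous_const)
    ⟨x, by simp⟩
  obtain ⟨s, s1, s2, s3⟩ := hS n n1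
  obtain ⟨i, rfl⟩ := Nat.exists_eq_add_of_le s2
  have hi : i < K := by omega
  have a := mem_iInter.1 n3 ⟨i, hi⟩
  have l : K * j + i < K * 2 ^ K := by nlinarith
  have e : (n + i) % (K * 2 ^ K) = K * j + i := by
    rw [← Nat.mod_add_mod, n2, Nat.mod_add_mod, Nat.mod_eq_of_lt l]
  have b := h _ s1
  simp only [mem_setOf_eq, ← Function.iterate_add_apply, add_comm i] at a
  simp only [← Nat.mod_mul_right_mod (n + i) K (2 ^ K), e, Nat.mul_add_mod, Nat.mod_eq_of_lt hi,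
    Nat.mul_add_div (show 0 < K from L.succ_pos), Nat.div_eq_of_lt hi, add_zero, j2 i hi] at b
  rw [b] at a
  split_ifs at a with g
  · have := norm_sub_le_norm_sub_add_norm_sub (0 : ℂ) (F (T^[i] x)) 1
    norm_num at a this; linarith
  · rw [norm_sub_rev] at a; exact g (by simpa using a)

end Pool.Agent.Results.MP_816335_an.Q1
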